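import Pool.Agent.W966.Vg.Stms2
import Pool.Agent.W975.VG.Tay

/-!
# VH-TAY2: Taylor coefficients and the Taylor homomorphism
-/

set_option autoImplicit false
set_option maxHeartbeats 400000

namespace Pool.Agent.W975.VH

open MvPolynomial Pool.Agent.W966.Vf Pool.Agent.W966.Vg Pool.Agent.W230.VF Pool.Agent.W975.VG

/-- The exponential of a derivation. -/
noncomputable def expD {K A : Type} [Field K] [CharZero K] [CommRing A] [Algebra K A]
    (D : Derivation K A A) : A →+* PowerSeries A where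
  toFun z := PowerSeries.mk fun k => dp D k z
  map_one' := by
    ext k
    rw [PowerSeries.coeff_mk, PowerSeries.coeff_one]
    rcases Nat.eq_zero_or_pos k with rfl | hk
    · rw [dp_zero, if_pos rfl]
    · rw [dp_eq_zero D _ D.map_one_eq_zero k hk, if_neg (by omega)]
  map_zero' := by
    ext k
    rw [PowerSeries.coeff_mk, map_zero, map_zero]
  map_mul' x y := by
    ext k
    rw [PowerSeries.coeff_mk, PowerSeries.coeff_mul, dp_mul]
    refine Finset.sum_congr rfl fun q _ => ?_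
    rw [PowerSeries.coeff_mk, PowerSeries.coeff_mk]
  map_add' x y := by
    ext k
    rw [PowerSeries.coeff_mk, map_add, map_add, PowerSeries.coeff_mk, PowerSeries.coeff_mk]

lemma expD_coeff {K A : Type} [Field K] [CharZero K] [CommRing A] [Algebra K A]
    (D : Derivation K A A) (z : A) (k : ℕ) :
    PowerSeries.coeff k (expD D z) = dp D k z := by
  show PowerSeries.coeff k (PowerSeries.mk fun k => dp D k z) = _
  rw [PowerSeries.coeff_mk]

theorem core2 {K F Ω Ω' ι σ J : Type} [Field K] [CharZero K] [Field F] [Algebra K F] [Field Ω]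
    [Algebra F Ω] [Algebra K Ω] [IsScalarTower K F Ω] [Fintype ι] [Fintype σ] [Fintype J]
    [Field Ω'] [Algebra Ω Ω'] [Algebra K Ω']
    (hK : ∀ z : K, algebraMap K Ω' z = algebraMap Ω Ω' (algebraMap K Ω z))
    (x : ι → F) (a : Fin 0 → F) (T : Set σ) (w₀ : σ → Ω) (g : ↥(Tᶜ) → PowerSeries Ω)
    (γ : ↥(Tᶜ) → Ω) (e : ℕ) (α β δ : J → AF K (ι ⊕ Fin 0 ⊕ σ)) (c : ↥(Tᶜ) → J → K)
    (hw : AlgebraicIndependent F (Sum.elim (fun s : T => w₀ s) γ))
    (heq : ∀ b, ∑ j, algebraMap K (PowerSeries Ω) (c b j) *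
      ((α j).val (pt x a T w₀ g) * (β j).val (pt x a T w₀ g) - (δ j).val (pt x a T w₀ g)) =
        PowerSeries.C (γ b) * PowerSeries.X ^ e)
    (u : ι → Ω') (D : Derivation K Ω' Ω')
    (hDx : ∀ i, D (algebraMap Ω Ω' (algebraMap F Ω (x i))) = u i) (hDu : ∀ i, D (u i) = 0)
    (hDT : ∀ s : T, D (algebraMap Ω Ω' (w₀ s)) = 0) (hDγ : ∀ b, D (algebraMap Ω Ω' (γ b)) = 0) :
    ∃ (lam : (ι ⊕ Fin 0 ⊕ σ) → J → PowerSeries Ω) (mu : (ι ⊕ Fin 0 ⊕ σ) → ι → PowerSeries Ω)
      (W : ℕ → (ι ⊕ Fin 0 ⊕ σ) → PowerSeries Ω'),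
      TayRec α β e lam mu u W ∧
      ∀ (o : AF K (ι ⊕ Fin 0 ⊕ σ)) (k : ℕ), 1 ≤ k →
        PowerSeries.constantCoeff (Pool.Agent.W966.Vg.lin o (W k)) =
          dp D k (algebraMap Ω Ω' (PowerSeries.constantCoeff (o.val (pt x a T w₀ g)))) := by
  classical
  set w := pt x a T w₀ g with hwdef
  have hF0 : CharZero F := charZero_of_injective_algebraMap (algebraMap K F).injective
  have hdb : ∀ b : ↥(Tᶜ), ∃ d : Derivation F Ω Ω, (∀ s : T, d (w₀ s) = 0) ∧
      ∀ b', d (γ b') = if b' = b then 1 else 0 := by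
    intro b
    obtain ⟨d, hd⟩ := Pool.Agent.W405.VF.der_main F (T ⊕ ↥(Tᶜ)) Ω _ hw (Sum.inr b)
    refine ⟨d, fun s => ?_, fun b' => ?_⟩
    · simpa using hd (Sum.inl s)
    · simpa using hd (Sum.inr b')
  choose d hdT hdγ using hdb
  -- the point
  have hwl : ∀ i, w (Sum.inl i) = PowerSeries.C (algebraMap F Ω (x i)) := fun i => rfl
  have hwT : ∀ s, s ∈ T → w (Sum.inr (Sum.inr s)) = PowerSeries.C (w₀ s) := by
    intro s hs
    have : w (Sum.inr (Sum.inr s)) = PowerSeries.C (w₀ s) +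
      if h : s ∈ Tᶜ then g ⟨s, h⟩ else 0 := rfl
    rw [this, dif_neg (by simpa using hs), add_zero]
  set Jm : Matrix ↥(Tᶜ) ↥(Tᶜ) (PowerSeries Ω) := fun b s =>
    Jf α β δ c w b (Sum.inr (Sum.inr s.1)) with hJm
  set Wm : Matrix ↥(Tᶜ) ↥(Tᶜ) (PowerSeries Ω) := fun s b =>
    ext ((d b).restrictScalars K) (w (Sum.inr (Sum.inr s.1))) with hWm
  have hsplit : ∀ (A : Type) [CommRing A] (f : ι ⊕ Fin 0 ⊕ σ → A),
      (∀ s ∈ T, f (Sum.inr (Sum.inr s)) = 0) →
      ∑ s, f s = ∑ i, f (Sum.inl i) + ∑ s : ↥(Tᶜ), f (Sum.inr (Sum.inr s.1)) := by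
    intro A _ f hf
    rw [Fintype.sum_sum_type, Fintype.sum_sum_type, Finset.univ_eq_empty (α := Fin 0),
      Finset.sum_empty, zero_add]
    congr 1
    have h1 : ∑ s : ↥(Tᶜ), f (Sum.inr (Sum.inr s.1)) =
        ∑ s ∈ Finset.univ.filter (fun s => s ∈ Tᶜ), f (Sum.inr (Sum.inr s)) := by
      rw [← Finset.sum_subtype_eq_sum_filter]
      refine Finset.sum_bij' (fun s _ => ⟨s.1, s.2⟩) (fun s _ => ⟨s.1, s.2⟩) ?_ ?_ ?_ ?_ ?_ <;>
        simp
    rw [h1, Finset.sum_filter]
    refine Finset.sum_congr rfl fun s _ => ?_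
    by_cases hs : s ∈ T
    · rw [hf s hs]; simp
    · rw [if_pos (by simpa using hs)]
  have hJW : Jm * Wm = (PowerSeries.X ^ e : PowerSeries Ω) • (1 : Matrix ↥(Tᶜ) ↥(Tᶜ) _) := by
    ext1 b' b
    have h1 := first α β δ c w b' ((d b).restrictScalars K)
    rw [heq b', ext_CX] at h1
    rw [hsplit] at h1
    · rw [Matrix.mul_apply, Matrix.smul_apply, Matrix.one_apply]
      have h2 : ((d b).restrictScalars K) (γ b') = if b' = b then 1 else 0 := hdγ b b'
      rw [h2] at h1
      have h3 : ∀ y : F, ext ((d b).restrictScalars K) (PowerSeries.C (algebraMap F Ω y)) = 0 := by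
        intro y
        rw [ext_C]
        have : ((d b).restrictScalars K) (algebraMap F Ω y) = 0 := (d b).map_algebraMap y
        rw [this, map_zero]
      simp only [hwl, h3, mul_zero, Finset.sum_const_zero, zero_add] at h1
      rw [← h1]
      split_ifs <;> simp
    · intro s hs
      rw [hwT s hs, ext_C]
      have : ((d b).restrictScalars K) (w₀ s) = 0 := hdT b ⟨s, hs⟩
      rw [this, map_zero, mul_zero]
  have hWJ := inv_comm Jm Wm _ (pow_ne_zero e PowerSeries.X_ne_zero) hJW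
  set φ := PowerSeries.map (algebraMap Ω Ω') with hφ
  set w' : ι ⊕ Fin 0 ⊕ σ → PowerSeries Ω' := fun s => φ (w s) with hw'
  set W : ℕ → (ι ⊕ Fin 0 ⊕ σ) → PowerSeries Ω' := fun k s => dp (ext D) k (w' s) with hW
  have heq' : ∀ b, ∑ j, algebraMap K (PowerSeries Ω') (c b j) *
      ((α j).val w' * (β j).val w' - (δ j).val w') =
        PowerSeries.C (algebraMap Ω Ω' (γ b)) * PowerSeries.X ^ e := by
    intro b
    have := congrArg φ (heq b)
    simpa only [hφ, map_sum, map_mul, map_sub, map_alg hK, map_val hK, PowerSeries.map_C, map_pow,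
      PowerSeries.map_X] using this
  have hwl' : ∀ i, ext D (w' (Sum.inl i)) = PowerSeries.C (u i) := by
    intro i
    have : w' (Sum.inl i) = PowerSeries.C (algebraMap Ω Ω' (algebraMap F Ω (x i))) := by
      simp only [hw', hwl, hφ, PowerSeries.map_C]
    rw [this, ext_C, hDx]
  have hWx1 : ∀ i, W 1 (Sum.inl i) = PowerSeries.C (u i) := by
    intro i
    simp only [hW]
    rw [dp_one, hwl']
  have hWx2 : ∀ k, 2 ≤ k → ∀ i, W k (Sum.inl i) = 0 := by
    intro k hk i
    simp only [hW]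
    refine dp_eq_zero' _ _ ?_ k hk
    rw [hwl', ext_C, hDu, map_zero]
  have hWT : ∀ k, 1 ≤ k → ∀ s ∈ T, W k (Sum.inr (Sum.inr s)) = 0 := by
    intro k hk s hs
    simp only [hW]
    refine dp_eq_zero _ _ ?_ k hk
    have : w' (Sum.inr (Sum.inr s)) = PowerSeries.C (algebraMap Ω Ω' (w₀ s)) := by
      simp only [hw', hwT s hs, hφ, PowerSeries.map_C]
    rw [this, ext_C, hDT ⟨s, hs⟩, map_zero]
  set Q : ℕ → J → PowerSeries Ω' := fun k j => ∑ i ∈ Finset.Ioo 0 k,
    Pool.Agent.W966.Vg.lin (α j) (W i) * Pool.Agent.W966.Vg.lin (β j) (W (k - i)) with hQ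
  have hmain : ∀ k, 1 ≤ k → ∀ b, ∑ s, φ (Jm b s) * W k (Sum.inr (Sum.inr s.1)) =
      - (∑ i, φ (Jf α β δ c w b (Sum.inl i)) * W k (Sum.inl i) +
        ∑ j, algebraMap K (PowerSeries Ω') (c b j) * Q k j) := by
    intro k hk b
    have h1 := higher α β δ c w' b (ext D) k hk
    rw [heq' b, dp_eq_zero _ _ (by rw [ext_CX, hDγ, map_zero, zero_mul]) k hk, hsplit] at h1
    · simp only [hJm, hφ, map_Jf hK]
      simp only [hQ, hW]
      linear_combination -h1
    · intro s hs
      have := hWT k hk s hs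
      simp only [hW] at this
      rw [this, mul_zero]
  have hsolve : ∀ k, 1 ≤ k → ∀ (s : ↥(Tᶜ)), PowerSeries.X ^ e * W k (Sum.inr (Sum.inr s.1)) =
      - ∑ b, φ (Wm s b) * (∑ i, φ (Jf α β δ c w b (Sum.inl i)) * W k (Sum.inl i) +
        ∑ j, algebraMap K (PowerSeries Ω') (c b j) * Q k j) := by
    intro k hk s
    have h1 : ∑ b, φ (Wm s b) * ∑ s', φ (Jm b s') * W k (Sum.inr (Sum.inr s'.1)) =
        PowerSeries.X ^ e * W k (Sum.inr (Sum.inr s.1)) := by
      have h2 : ∀ s', ∑ b, φ (Wm s b) * φ (Jm b s') =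
          if s = s' then PowerSeries.X ^ e else 0 := by
        intro s'
        have := congrArg φ (congrFun (congrFun hWJ s) s')
        rw [Matrix.mul_apply, Matrix.smul_apply, Matrix.one_apply, map_sum] at this
        simp only [map_mul] at this
        rw [this]
        split_ifs <;> simp [hφ, PowerSeries.map_X]
      simp only [Finset.mul_sum, ← mul_assoc]
      rw [Finset.sum_comm]
      simp only [← Finset.sum_mul, h2, ite_mul, zero_mul, Finset.sum_ite_eq, Finset.mem_univ,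
        if_true]
    rw [← h1, ← Finset.sum_neg_distrib]
    refine Finset.sum_congr rfl fun b _ => ?_
    rw [hmain k hk]
    ring
  have hWxk : ∀ k, 1 ≤ k → ∀ i, W k (Sum.inl i) = if k = 1 then PowerSeries.C (u i) else 0 := by
    intro k hk i
    split_ifs with h
    · rw [h, hWx1]
    · exact hWx2 k (by omega) i
  refine ⟨Sum.elim (fun _ _ => 0) (Sum.elim (fun _ _ => 0)
      (fun s j => if h : s ∈ Tᶜ then - ∑ b, Wm ⟨s, h⟩ b * algebraMap K (PowerSeries Ω) (c b j)
        else 0)),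
    Sum.elim (fun i i' => if i' = i then PowerSeries.X ^ e else 0) (Sum.elim (fun _ _ => 0)
      (fun s i => if h : s ∈ Tᶜ then - ∑ b, Wm ⟨s, h⟩ b * Jf α β δ c w b (Sum.inl i)
        else 0)), W, ?_, ?_⟩
  · intro k hk s
    have hif : ∀ f : ι → PowerSeries Ω',
        (if k = 1 then ∑ i, f i * PowerSeries.C (u i) else 0) =
          ∑ i, f i * W k (Sum.inl i) := by
      intro f
      simp only [hWxk k hk]
      split_ifs <;> simp
    rw [hif]
    rcases s with (s | s | s)
    · have h1 : ∀ i, φ (if i = s then PowerSeries.X ^ e else 0) * W k (Sum.inl i) =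
          if i = s then PowerSeries.X ^ e * W k (Sum.inl i) else 0 := by
        intro i
        split_ifs
        · rw [map_pow, hφ, PowerSeries.map_X]
        · rw [map_zero, zero_mul]
      simp only [Sum.elim_inl, map_zero, zero_mul, Finset.sum_const_zero, zero_add]
      rw [Finset.sum_congr rfl fun i _ => h1 i]
      simp
    · exact s.elim0
    · by_cases hs : s ∈ T
      · rw [hWT k hk s hs]
        simp [hs]
      · have hs' : s ∈ Tᶜ := hs
        rw [hsolve k hk ⟨s, hs'⟩]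
        simp only [Sum.elim_inr, dif_pos hs']
        have h2 := swap (fun b => φ (Wm ⟨s, hs'⟩ b))
          (fun b j => algebraMap K (PowerSeries Ω') (c b j)) (Q k)
          (fun b i => φ (Jf α β δ c w b (Sum.inl i))) (fun i => W k (Sum.inl i))
        rw [h2]
        simp only [map_neg, map_sum, map_mul, hφ, map_alg hK, hQ]
  · intro o k hk1
    have h2 := dp_val (ext D) o w' k hk1
    rw [hW, ← h2, dp_ext_const]
    congr 1
    have h3 : o.val w' = φ (o.val w) := (map_val hK o w).symm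
    rw [h3, hφ, ← PowerSeries.coeff_zero_eq_constantCoeff_apply,
      ← PowerSeries.coeff_zero_eq_constantCoeff_apply, PowerSeries.coeff_map]

/-- **VH-TAY2** -/
theorem tay2 : S_TAY2 := by
  classical
  intro K F Ω ι σ J _ _ _ _ _ _ _ _ _ _ _ x a T w₀ g γ e α β δ c hx hw _ heq
  obtain ⟨Ω', _, _, u, hu⟩ : ∃ (Ω' : Type) (_ : Field Ω') (_ : Algebra Ω Ω') (u : ι → Ω'),
      AlgebraicIndependent Ω u := by
    refine ⟨FractionRing (MvPolynomial ι Ω), inferInstance, inferInstance,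
      fun b => algebraMap (MvPolynomial ι Ω) (FractionRing (MvPolynomial ι Ω)) (X b), ?_⟩
    have h1 := MvPolynomial.algebraicIndependent_X ι Ω
    exact h1.map' (f := IsScalarTower.toAlgHom Ω (MvPolynomial ι Ω)
      (FractionRing (MvPolynomial ι Ω))) (IsFractionRing.injective _ _)
  letI : Algebra K Ω' := ((algebraMap Ω Ω').comp (algebraMap K Ω)).toAlgebra
  have hK : ∀ z : K, algebraMap K Ω' z = algebraMap Ω Ω' (algebraMap K Ω z) := fun _ => rfl
  haveI : IsScalarTower K Ω Ω' := IsScalarTower.of_algebraMap_eq hK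
  have hx' : AlgebraicIndependent K (fun i => algebraMap F Ω (x i)) :=
    (hx.map' (f := IsScalarTower.toAlgHom K F Ω) (algebraMap F Ω).injective)
  have hall : AlgebraicIndependent K (Sum.elim (Sum.elim (fun s : T => w₀ s) γ)
      (fun i => algebraMap F Ω (x i))) :=
    AlgebraicIndependent.sumElim_of_tower (S := F) hx'
      (by rintro _ ⟨i, rfl⟩; exact ⟨x i, rfl⟩) hw
  have hall' : AlgebraicIndependent K (fun v => algebraMap Ω Ω' ((Sum.elim (Sum.elim
      (fun s : T => w₀ s) γ) (fun i => algebraMap F Ω (x i))) v)) :=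
    (hall.map' (f := IsScalarTower.toAlgHom K Ω Ω') (algebraMap Ω Ω').injective)
  have hall2 : AlgebraicIndependent K (Sum.elim u (fun v => algebraMap Ω Ω' ((Sum.elim (Sum.elim
      (fun s : T => w₀ s) γ) (fun i => algebraMap F Ω (x i))) v))) :=
    AlgebraicIndependent.sumElim_of_tower (S := Ω) hall'
      (by rintro _ ⟨v, rfl⟩; exact ⟨_, rfl⟩) hu
  have hDi : ∀ i : ι, ∃ D : Derivation K Ω' Ω',
      (∀ j, D (algebraMap Ω Ω' (algebraMap F Ω (x j))) = if j = i then 1 else 0) ∧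
      (∀ j, D (u j) = 0) ∧ (∀ s : T, D (algebraMap Ω Ω' (w₀ s)) = 0) ∧
      ∀ b, D (algebraMap Ω Ω' (γ b)) = 0 := by
    intro i
    obtain ⟨D, hD⟩ := Pool.Agent.W405.VF.der_main K (ι ⊕ ((T ⊕ ↥(Tᶜ)) ⊕ ι)) Ω' _ hall2
      (Sum.inr (Sum.inr i))
    refine ⟨D, fun j => ?_, fun j => ?_, fun s => ?_, fun b => ?_⟩
    · simpa using hD (Sum.inr (Sum.inr j))
    · simpa using hD (Sum.inl j)
    · simpa using hD (Sum.inr (Sum.inl (Sum.inl s)))
    · simpa using hD (Sum.inr (Sum.inl (Sum.inr b)))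
  choose D hDx hDu hDT hDγ using hDi
  set D' : Derivation K Ω' Ω' := ∑ i, u i • D i with hD'
  have hval : ∀ y, D' y = ∑ i, u i * D i y := by
    intro y
    rw [hD', ← Derivation.coeFnAddMonoidHom_apply, map_sum, Finset.sum_apply]
    rfl
  have hDx' : ∀ i, D' (algebraMap Ω Ω' (algebraMap F Ω (x i))) = u i := fun i => by
    rw [hval]
    simp [hDx]
  have hDu' : ∀ i, D' (u i) = 0 := fun i => by
    rw [hval]
    simp [hDu]
  obtain ⟨lam, mu, W, h1, h2⟩ := core2 hK x a T w₀ g γ e α β δ c hw heq u D' hDx' hDu'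
    (fun s => by rw [hval]; simp [hDT])
    (fun b => by rw [hval]; simp [hDγ])
  refine ⟨Ω', inferInstance, inferInstance, inferInstance, u, lam, mu, W,
    (expD D').comp ((algebraMap Ω Ω').comp (algebraMap F Ω)), hu, hK, h1, ?_, ?_, ?_, ?_⟩
  · intro z
    ext k
    rw [RingHom.comp_apply, RingHom.comp_apply, expD_coeff, PowerSeries.coeff_C]
    have h3 : algebraMap Ω Ω' (algebraMap F Ω (algebraMap K F z)) = algebraMap K Ω' z := by
      rw [hK, IsScalarTower.algebraMap_apply K F Ω]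
    rw [h3]
    rcases Nat.eq_zero_or_pos k with rfl | hk
    · rw [dp_zero, if_pos rfl]
    · rw [dp_eq_zero D' _ (D'.map_algebraMap z) k hk, if_neg (by omega)]
  · intro i
    ext k
    rw [RingHom.comp_apply, RingHom.comp_apply, expD_coeff, map_add, PowerSeries.coeff_C,
      PowerSeries.coeff_C_mul, PowerSeries.coeff_X]
    rcases k with _ | _ | k
    · simp [dp_zero]
    · rw [zero_add, dp_one, hDx']
      simp
    · rw [dp_eq_zero' D' _ (by rw [hDx', hDu']) _ (by omega)]
      simp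
  · intro z
    rw [← PowerSeries.coeff_zero_eq_constantCoeff_apply, RingHom.comp_apply, RingHom.comp_apply,
      expD_coeff, dp_zero]
  · intro o z hz k hk
    rw [RingHom.comp_apply, RingHom.comp_apply, expD_coeff, h2 o k hk, hz]

end Pool.Agent.W975.VH
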